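import Mathlib

/-!
Project EL (helper770): uniqueness for a coupled elliptic system fails in every dimension; statements.
-/

set_option autoImplicit false

open MeasureTheory Set Metric
open scoped ContDiff

namespace Pool.Agent.Y770.EL

/-- the square of the distance to the axis, minus `2` -/
noncomputable def yv {k : ℕ} (X : EuclideanSpace ℝ (Fin (k + 1))) : ℝ :=
  ∑ i : Fin k, X i.succ ^ 2 - 2

/-- the solid of revolution -/
def Dn (k : ℕ) : Set (EuclideanSpace ℝ (Fin (k + 1))) := {X | X 0 ^ 2 + yv X ^ 2 < 1}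

/-- EL-INT1: one variable -/
def S_INT1 : Prop := ∀ (D : Set ℝ), IsOpen D → Bornology.IsBounded D →
  ∀ g g' : ℝ → ℝ, (∀ t, HasDerivAt g (g' t) t) → Continuous g' → (∀ t ∈ frontier D, g t = 0) →
    ∫ t in D, g' t = 0

/-- EL-INT: the integral of a partial derivative of a function that vanishes at the boundary -/
def S_INT : Prop := ∀ (n : ℕ) (D : Set (EuclideanSpace ℝ (Fin n))), IsOpen D →
  Bornology.IsBounded D → ∀ G : EuclideanSpace ℝ (Fin n) → ℝ, ContDiff ℝ 1 G →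
    (∀ x ∈ frontier D, G x = 0) → ∀ i : Fin n,
      ∫ x in D, fderiv ℝ G x (EuclideanSpace.single i 1) = 0

/-- EL-DOM: the solid of revolution is a bounded domain with smooth connected boundary -/
def S_DOM : Prop := ∀ k : ℕ, 2 ≤ k →
  IsOpen (Dn k) ∧ IsConnected (Dn k) ∧ Bornology.IsBounded (Dn k) ∧
    frontier (Dn k) = {X | X 0 ^ 2 + yv X ^ 2 = 1} ∧
    closure (Dn k) = {X | X 0 ^ 2 + yv X ^ 2 ≤ 1} ∧ IsConnected (frontier (Dn k)) ∧
    ContDiff ℝ ∞ (fun X : EuclideanSpace ℝ (Fin (k + 1)) => X 0 ^ 2 + yv X ^ 2 - 1) ∧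
    ∀ X : EuclideanSpace ℝ (Fin (k + 1)), X 0 ^ 2 + yv X ^ 2 = 1 →
      fderiv ℝ (fun X : EuclideanSpace ℝ (Fin (k + 1)) => X 0 ^ 2 + yv X ^ 2 - 1) X ≠ 0

end Pool.Agent.Y770.EL
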