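import Pool.Agent.Results.MP_f60174_an.DiscCounterexample
import Pool.Agent.Y770.EL.Stm

/-!
Project EL (helper770): the energy estimate on bounded open sets of `ℝⁿ`.
-/

set_option autoImplicit false

open MeasureTheory Set Metric
open scoped ContDiff

namespace Pool.Agent.Y770.EL

open Pool.Agent.Results.MP_f60174_an.DiscCounterexample (E pd ellOp IsSmoothDomain IsAdmissibleOp
  SmoothPos IsSolution)

lemma continuous_pd' {n : ℕ} {f : E n → ℝ} (hf : ContDiff ℝ 1 f) (i : Fin n) :
    Continuous (pd i f) := by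
  have := hf.continuous_fderiv (by norm_num)
  exact this.clm_apply continuous_const

lemma contDiff_pd' {n : ℕ} {f : E n → ℝ} {m l : WithTop ℕ∞} (hf : ContDiff ℝ l f)
    (h : m + 1 ≤ l) (i : Fin n) : ContDiff ℝ m (pd i f) :=
  (hf.fderiv_right h).clm_apply contDiff_const

lemma pd_mul' {n : ℕ} {f g : E n → ℝ} {x : E n} (hf : DifferentiableAt ℝ f x)
    (hg : DifferentiableAt ℝ g x) (i : Fin n) :
    pd i (fun y => f y * g y) x = pd i f x * g x + f x * pd i g x := by
  unfold pd
  rw [fderiv_fun_mul hf hg]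
  simp
  ring

lemma pd_sum' {n : ℕ} {ι : Type} (s : Finset ι) {f : ι → E n → ℝ} {x : E n}
    (hf : ∀ j ∈ s, DifferentiableAt ℝ (f j) x) (i : Fin n) :
    ∑ j ∈ s, pd i (f j) x = pd i (fun y => ∑ j ∈ s, f j y) x := by
  unfold pd
  rw [fderiv_fun_sum hf]
  simp

lemma pd_coord' {n : ℕ} (i : Fin n) (x : E n) : pd i (fun y : E n => y i) x = 1 := by
  unfold pd
  have h : HasFDerivAt (fun y : E n => y i) (EuclideanSpace.proj i : E n →L[ℝ] ℝ) x :=
    (EuclideanSpace.proj i : E n →L[ℝ] ℝ).hasFDerivAt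
  rw [h.fderiv]
  simp

lemma integrableOn_D {n : ℕ} {D : Set (E n)} (hb : Bornology.IsBounded D) {f : E n → ℝ}
    (hf : Continuous f) : IntegrableOn f D :=
  (hf.continuousOn.integrableOn_compact hb.isCompact_closure).mono_set subset_closure

/-- Poincaré inequality -/
lemma poincare' (hI : S_INT) {m : ℕ} {D : Set (E (m + 1))} (hDo : IsOpen D)
    (hDb : Bornology.IsBounded D) (hx : ∀ x ∈ D, x 0 ^ 2 ≤ 1) {w : E (m + 1) → ℝ}
    (hw : ContDiff ℝ 2 w) (h0 : ∀ x ∈ frontier D, w x = 0) :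
    ∫ x in D, w x ^ 2 ≤ 4 * ∫ x in D, pd 0 w x ^ 2 := by
  have hd : Differentiable ℝ w := hw.differentiable (by norm_num)
  have hG : ContDiff ℝ 1 (fun x : E (m + 1) => x 0 * (w x * w x)) := by
    have := hw.of_le (show (1 : WithTop ℕ∞) ≤ 2 by norm_num)
    fun_prop
  have key : ∫ x in D, pd 0 (fun x : E (m + 1) => x 0 * (w x * w x)) x = 0 :=
    hI (m + 1) D hDo hDb _ hG (fun x hx => by simp [h0 x hx]) 0
  have hpd : ∀ x : E (m + 1), pd 0 (fun x : E (m + 1) => x 0 * (w x * w x)) x =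
      w x ^ 2 + 2 * (x 0 * w x * pd 0 w x) := by
    intro x
    rw [pd_mul' (by fun_prop) (by fun_prop), pd_mul' (hd x) (hd x), pd_coord']
    ring
  simp only [hpd] at key
  have hc1 : Continuous (fun x : E (m + 1) => w x ^ 2) := by fun_prop
  have hc2 : Continuous (pd 0 w) := continuous_pd' (hw.of_le (by norm_num)) 0
  have hc3 : Continuous (fun x : E (m + 1) => w x ^ 2 + 2 * (x 0 * w x * pd 0 w x)) := by fun_prop
  have hle : ∫ x in D, ((1/2) * w x ^ 2 - 2 * pd 0 w x ^ 2) ≤
      ∫ x in D, (w x ^ 2 + 2 * (x 0 * w x * pd 0 w x)) := by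
    refine setIntegral_mono_on (integrableOn_D hDb (by fun_prop)) (integrableOn_D hDb hc3)
      hDo.measurableSet ?_
    intro x hxD
    have hx0 : x 0 ^ 2 ≤ 1 := hx x hxD
    have : 0 ≤ (w x + 2 * (x 0 * pd 0 w x)) ^ 2 := sq_nonneg _
    nlinarith [mul_nonneg (sq_nonneg (pd 0 w x)) (sub_nonneg.2 hx0)]
  rw [key, integral_sub (integrableOn_D hDb (by fun_prop)) (integrableOn_D hDb (by fun_prop)),
    integral_const_mul, integral_const_mul] at hle
  linarith

/-- The energy estimate: uniform ellipticity implies strict positivity. -/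
lemma energy' (hI : S_INT) {m : ℕ} {D : Set (E (m + 1))} (hDo : IsOpen D)
    (hDb : Bornology.IsBounded D) (hx : ∀ x ∈ D, x 0 ^ 2 ≤ 1)
    {A : Fin (m + 1) → Fin (m + 1) → E (m + 1) → ℝ} (hA : ∀ i j, ContDiff ℝ ∞ (A i j)) {lam : ℝ}
    (hlam : 0 < lam) (hell : ∀ x ∈ D, ∀ ξ : Fin (m + 1) → ℝ,
      lam * ∑ i, ξ i ^ 2 ≤ ∑ i, ∑ j, A i j x * ξ i * ξ j)
    {w : E (m + 1) → ℝ} (hw : ContDiff ℝ 2 w) (h0 : ∀ x ∈ frontier D, w x = 0) :
    lam / 4 * ∫ x in D, w x ^ 2 ≤ ∫ x in D, ellOp A (fun _ => 0) w x * w x := by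
  have hA1 : ∀ i j, ContDiff ℝ 1 (A i j) := fun i j => (hA i j).of_le (by norm_cast)
  have hw1 : ContDiff ℝ 1 w := hw.of_le (by norm_num)
  have hdw : ∀ j, ContDiff ℝ 1 (pd j w) := fun j => contDiff_pd' hw (by norm_num) j
  set T : Fin (m + 1) → Fin (m + 1) → E (m + 1) → ℝ := fun i j y => A i j y * pd j w y with hT
  have hT1 : ∀ i j, ContDiff ℝ 1 (T i j) := fun i j => (hA1 i j).mul (hdw j)
  have hTd : ∀ i j, Differentiable ℝ (T i j) := fun i j => (hT1 i j).differentiable (by norm_num)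
  have hwd : Differentiable ℝ w := hw1.differentiable (by norm_num)
  have hz : ∀ i j, ∫ x in D, pd i (fun y => T i j y * w y) x = 0 := by
    intro i j
    exact hI (m + 1) D hDo hDb _ ((hT1 i j).mul hw1) (fun x hx => by simp [h0 x hx]) i
  have hcont : ∀ i j, Continuous (pd i (fun y => T i j y * w y)) := fun i j =>
    continuous_pd' ((hT1 i j).mul hw1) i
  have hpt : ∀ x, ellOp A (fun _ => 0) w x * w x =
      (∑ i, ∑ j, A i j x * pd i w x * pd j w x) - ∑ i, ∑ j, pd i (fun y => T i j y * w y) x := by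
    intro x
    have h1 : ∀ i j, pd i (fun y => T i j y * w y) x =
        pd i (fun y => A i j y * pd j w y) x * w x + A i j x * pd i w x * pd j w x := by
      intro i j
      rw [pd_mul' (hTd i j x) (hwd x)]
      simp only [hT]
      ring
    simp only [h1, ellOp, Finset.sum_add_distrib, ← Finset.sum_mul]
    ring
  have hc1 : Continuous (fun x => ∑ i, ∑ j, A i j x * pd i w x * pd j w x) := by
    refine continuous_finsetSum _ fun i _ => continuous_finsetSum _ fun j _ => ?_
    exact ((hA1 i j).continuous.mul (hdw i).continuous).mul (hdw j).continuous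
  have hc2 : Continuous (fun x => ∑ i, ∑ j, pd i (fun y => T i j y * w y) x) :=
    continuous_finsetSum _ fun i _ => continuous_finsetSum _ fun j _ => hcont i j
  have hzero : ∫ x in D, ∑ i, ∑ j, pd i (fun y => T i j y * w y) x = 0 := by
    rw [integral_finsetSum _ (fun i _ => ?_)]
    · refine Finset.sum_eq_zero fun i _ => ?_
      rw [integral_finsetSum _ (fun j _ => integrableOn_D hDb (hcont i j))]
      exact Finset.sum_eq_zero fun j _ => hz i j
    · exact integrableOn_D hDb (continuous_finsetSum _ fun j _ => hcont i j)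
  simp only [hpt]
  rw [integral_sub (integrableOn_D hDb hc1) (integrableOn_D hDb hc2), hzero, sub_zero]
  have hq : Continuous (fun x => lam * pd 0 w x ^ 2) := by
    have := (hdw 0).continuous
    fun_prop
  have hle : ∫ x in D, lam * pd 0 w x ^ 2 ≤
      ∫ x in D, ∑ i, ∑ j, A i j x * pd i w x * pd j w x := by
    refine setIntegral_mono_on (integrableOn_D hDb hq) (integrableOn_D hDb hc1)
      hDo.measurableSet ?_
    intro x hx
    have h1 := hell x hx (fun i => pd i w x)
    have h2 : pd 0 w x ^ 2 ≤ ∑ i, pd i w x ^ 2 :=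
      Finset.single_le_sum (f := fun i => pd i w x ^ 2) (fun i _ => sq_nonneg _)
        (Finset.mem_univ 0)
    exact (mul_le_mul_of_nonneg_left h2 hlam.le).trans h1
  rw [integral_const_mul] at hle
  have hP := poincare' hI hDo hDb hx hw h0
  nlinarith

end Pool.Agent.Y770.EL
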