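import Pool.Agent.Y770.EL.En

/-!
Project EL (helper770): the operators on the solid of revolution.
-/

set_option autoImplicit false

open MeasureTheory Set Metric
open scoped ContDiff Topology

namespace Pool.Agent.Y770.EL

open Pool.Agent.Results.MP_f60174_an.DiscCounterexample (E pd ellOp IsSmoothDomain IsAdmissibleOp
  SmoothPos IsSolution)

/-- a weight with a prescribed logarithmic derivative on `[-1, 1]` -/
lemma exists_H (c : ℝ) : ∃ H : ℝ → ℝ, ContDiff ℝ ∞ H ∧ (∀ y, 0 < H y) ∧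
    ∀ y, -1 ≤ y → y ≤ 1 → HasDerivAt H (-(c * H y / (y + 2))) y := by
  set φ : ℝ → ℝ := fun y => 1 + Real.smoothTransition (4 * (y + 2) - 2) * (y + 1) with hφ
  have hφ1 : ContDiff ℝ ∞ φ := by
    have h1 : ContDiff ℝ ∞ (fun y : ℝ => Real.smoothTransition (4 * (y + 2) - 2)) :=
      (Real.smoothTransition.contDiff (n := ⊤)).comp (by fun_prop)
    exact contDiff_const.add (h1.mul (by fun_prop))
  have hpos : ∀ y, 0 < φ y := by
    intro y
    have h0 := Real.smoothTransition.nonneg (4 * (y + 2) - 2)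
    have h1 := Real.smoothTransition.le_one (4 * (y + 2) - 2)
    rcases le_or_gt y (-3 / 2) with h | h
    · have h2 : Real.smoothTransition (4 * (y + 2) - 2) = 0 :=
        Real.smoothTransition.zero_of_nonpos (by linarith)
      simp only [hφ, h2]
      norm_num
    · simp only [hφ]
      nlinarith
  have hev : ∀ y, -1 ≤ y → φ =ᶠ[𝓝 y] fun t => t + 2 := by
    intro y hy
    filter_upwards [lt_mem_nhds (show -5 / 4 < y by linarith)] with t ht
    have h2 : Real.smoothTransition (4 * (t + 2) - 2) = 1 :=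
      Real.smoothTransition.one_of_one_le (by linarith)
    simp only [hφ, h2]
    ring
  refine ⟨fun y => Real.exp (-(c * Real.log (φ y))), ?_, fun y => Real.exp_pos _, ?_⟩
  · exact ((contDiff_const.mul (hφ1.log fun y => (hpos y).ne')).neg).exp
  · intro y hy hy'
    have h1 : (fun y => Real.exp (-(c * Real.log (φ y)))) =ᶠ[𝓝 y]
        fun t => Real.exp (-(c * Real.log (t + 2))) := by
      filter_upwards [hev y hy] with t ht
      rw [ht]
    have h2 : φ y = y + 2 := (hev y hy).eq_of_nhds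
    have h3 : HasDerivAt (fun t : ℝ => Real.log (t + 2)) (1 / (y + 2)) y := by
      have := ((hasDerivAt_id y).add_const 2).log (show id y + 2 ≠ 0 by simp only [id]; linarith)
      simpa using this
    have h4 := ((h3.const_mul c).neg).exp
    refine (h4.congr_of_eventuallyEq h1).congr_deriv ?_
    simp only [h2, Pi.neg_apply]
    ring

section

variable {k : ℕ}

lemma contDiff_yv : ContDiff ℝ ∞ (fun X : E (k + 1) => yv X) := by
  unfold yv
  refine ContDiff.sub (ContDiff.sum fun i _ => ?_) contDiff_const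
  fun_prop

lemma pd_of_line {n : ℕ} {f : E n → ℝ} {X : E n} (hf : DifferentiableAt ℝ f X) (i : Fin n) {d : ℝ}
    (h : HasDerivAt (fun t : ℝ => f (X + t • EuclideanSpace.single i (1 : ℝ))) d 0) :
    pd i f X = d := by
  unfold pd
  rw [← hf.lineDeriv_eq_fderiv]
  exact h.deriv

lemma line0_zero (X : E (k + 1)) (t : ℝ) :
    (X + t • EuclideanSpace.single (0 : Fin (k + 1)) (1 : ℝ)) 0 = X 0 + t := by
  simp

lemma line0_succ (X : E (k + 1)) (t : ℝ) (b : Fin k) :
    (X + t • EuclideanSpace.single (0 : Fin (k + 1)) (1 : ℝ)) b.succ = X b.succ := by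
  simp [Fin.succ_ne_zero]

lemma line0_yv (X : E (k + 1)) (t : ℝ) :
    yv (X + t • EuclideanSpace.single (0 : Fin (k + 1)) (1 : ℝ)) = yv X := by
  unfold yv
  simp only [line0_succ]

lemma lines_zero (X : E (k + 1)) (t : ℝ) (a : Fin k) :
    (X + t • EuclideanSpace.single a.succ (1 : ℝ)) 0 = X 0 := by
  simp [(Fin.succ_ne_zero a).symm]

lemma lines_self (X : E (k + 1)) (t : ℝ) (a : Fin k) :
    (X + t • EuclideanSpace.single a.succ (1 : ℝ)) a.succ = X a.succ + t := by
  simp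

lemma lines_succ (X : E (k + 1)) (t : ℝ) (a b : Fin k) :
    (X + t • EuclideanSpace.single a.succ (1 : ℝ)) b.succ =
      X b.succ + if b = a then t else 0 := by
  by_cases h : b = a
  · subst h; simp
  · simp [h]

lemma lines_yv (X : E (k + 1)) (t : ℝ) (a : Fin k) :
    yv (X + t • EuclideanSpace.single a.succ (1 : ℝ)) = yv X + 2 * t * X a.succ + t ^ 2 := by
  unfold yv
  have h : ∀ b : Fin k, (X + t • EuclideanSpace.single a.succ (1 : ℝ)) b.succ ^ 2 =
      X b.succ ^ 2 + if b = a then 2 * t * X a.succ + t ^ 2 else 0 := by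
    intro b
    rw [lines_succ]
    by_cases h : b = a
    · subst h
      rw [if_pos rfl, if_pos rfl]
      ring
    · rw [if_neg h, if_neg h]
      ring
  rw [Finset.sum_congr rfl fun b _ => h b, Finset.sum_add_distrib, Finset.sum_ite_eq']
  simp
  ring

lemma hin (y0 x0 : ℝ) : HasDerivAt (fun t : ℝ => y0 + 2 * t * x0 + t ^ 2) (2 * x0) 0 := by
  have h := ((((hasDerivAt_id (0 : ℝ)).const_mul 2).mul_const x0).const_add y0).add
    ((hasDerivAt_id (0 : ℝ)).pow 2)
  refine (h.congr_deriv ?_).congr_of_eventuallyEq (Filter.Eventually.of_forall fun t => ?_)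
  · simp
  · simp

lemma pd0W {W Wx : ℝ → ℝ → ℝ} {X : E (k + 1)}
    (hd : DifferentiableAt ℝ (fun X : E (k + 1) => W (X 0) (yv X)) X)
    (h : HasDerivAt (fun t => W t (yv X)) (Wx (X 0) (yv X)) (X 0)) :
    pd 0 (fun X : E (k + 1) => W (X 0) (yv X)) X = Wx (X 0) (yv X) := by
  apply pd_of_line hd
  simp only [line0_zero, line0_yv]
  have h1 : HasDerivAt (fun t => W t (yv X)) (Wx (X 0) (yv X)) (X 0 + 0) := by
    rw [add_zero]; exact h
  exact h1.comp_const_add (X 0) 0

lemma pdsW {W Wy : ℝ → ℝ → ℝ} {X : E (k + 1)}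
    (hd : DifferentiableAt ℝ (fun X : E (k + 1) => W (X 0) (yv X)) X)
    (h : HasDerivAt (fun t => W (X 0) t) (Wy (X 0) (yv X)) (yv X)) (a : Fin k) :
    pd a.succ (fun X : E (k + 1) => W (X 0) (yv X)) X = Wy (X 0) (yv X) * (2 * X a.succ) := by
  apply pd_of_line hd
  simp only [lines_zero, lines_yv]
  have h1 := hin (yv X) (X a.succ)
  have h2 : HasDerivAt (fun t => W (X 0) t) (Wy (X 0) (yv X))
      (yv X + 2 * 0 * X a.succ + 0 ^ 2) := by
    have e : yv X + 2 * 0 * X a.succ + 0 ^ 2 = yv X := by ring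
    rw [e]; exact h
  exact h2.comp (0 : ℝ) h1

/-- the coefficient matrix on the solid of revolution -/
noncomputable def AN (H : ℝ → ℝ) (P Q S : ℝ → ℝ → ℝ) (i j : Fin (k + 1)) (X : E (k + 1)) : ℝ :=
  Fin.cases (motive := fun _ => ℝ)
    (Fin.cases (motive := fun _ => ℝ) (2 * (yv X + 2) * H (yv X) * P (X 0) (yv X))
      (fun b => H (yv X) * Q (X 0) (yv X) * X b.succ) j)
    (fun a => Fin.cases (motive := fun _ => ℝ) (H (yv X) * Q (X 0) (yv X) * X a.succ)
      (fun b => if a = b then H (yv X) * S (X 0) (yv X) / 2 else 0) j) i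

variable {H : ℝ → ℝ} {P Q S W Wx Wy F' G' : ℝ → ℝ → ℝ}

lemma AN_00 (X : E (k + 1)) : AN H P Q S 0 0 X = 2 * (yv X + 2) * H (yv X) * P (X 0) (yv X) := rfl

lemma AN_0s (b : Fin k) (X : E (k + 1)) :
    AN H P Q S 0 b.succ X = H (yv X) * Q (X 0) (yv X) * X b.succ := rfl

lemma AN_s0 (a : Fin k) (X : E (k + 1)) :
    AN H P Q S a.succ 0 X = H (yv X) * Q (X 0) (yv X) * X a.succ := rfl

lemma AN_ss (a b : Fin k) (X : E (k + 1)) :
    AN H P Q S a.succ b.succ X = if a = b then H (yv X) * S (X 0) (yv X) / 2 else 0 := rfl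

lemma AN_symm (i j : Fin (k + 1)) (X : E (k + 1)) : AN H P Q S i j X = AN H P Q S j i X := by
  refine Fin.cases ?_ (fun a => ?_) i
  · refine Fin.cases rfl (fun b => rfl) j
  · refine Fin.cases rfl (fun b => ?_) j
    rw [AN_ss, AN_ss]
    simp only [eq_comm]

lemma AN_smooth (hH : ContDiff ℝ ∞ H) (hP : ContDiff ℝ ∞ (fun X : E (k + 1) => P (X 0) (yv X)))
    (hQ : ContDiff ℝ ∞ (fun X : E (k + 1) => Q (X 0) (yv X)))
    (hS : ContDiff ℝ ∞ (fun X : E (k + 1) => S (X 0) (yv X))) (i j : Fin (k + 1)) :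
    ContDiff ℝ ∞ (AN H P Q S i j) := by
  have hHy : ContDiff ℝ ∞ (fun X : E (k + 1) => H (yv X)) := hH.comp contDiff_yv
  have hy := contDiff_yv (k := k)
  refine Fin.cases ?_ (fun a => ?_) i
  · refine Fin.cases ?_ (fun b => ?_) j
    · have h : ContDiff ℝ ∞ (fun X : E (k + 1) =>
        2 * (yv X + 2) * H (yv X) * P (X 0) (yv X)) :=
        ((contDiff_const.mul (hy.add contDiff_const)).mul hHy).mul hP
      exact h
    · have h : ContDiff ℝ ∞ (fun X : E (k + 1) => H (yv X) * Q (X 0) (yv X) * X b.succ) :=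
        (hHy.mul hQ).mul (by fun_prop)
      exact h
  · refine Fin.cases ?_ (fun b => ?_) j
    · have h : ContDiff ℝ ∞ (fun X : E (k + 1) => H (yv X) * Q (X 0) (yv X) * X a.succ) :=
        (hHy.mul hQ).mul (by fun_prop)
      exact h
    · by_cases hab : a = b
      · have h : ContDiff ℝ ∞ (fun X : E (k + 1) => H (yv X) * S (X 0) (yv X) / 2) :=
          (hHy.mul hS).div_const 2
        have h2 : (AN H P Q S a.succ b.succ : E (k + 1) → ℝ) =
            fun X : E (k + 1) => H (yv X) * S (X 0) (yv X) / 2 := by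
          funext X
          rw [AN_ss, if_pos hab]
        rw [h2]
        exact h
      · have h2 : (AN H P Q S a.succ b.succ : E (k + 1) → ℝ) = fun _ : E (k + 1) => (0 : ℝ) := by
          funext X
          rw [AN_ss, if_neg hab]
        rw [h2]
        exact contDiff_const

lemma sum_sq_eq (X : E (k + 1)) : ∑ a : Fin k, X a.succ ^ 2 = yv X + 2 := by
  unfold yv; ring

/-- the operator on the solid of revolution -/
lemma ellOp_rev (hH : ContDiff ℝ ∞ H)
    (hHd : ∀ y, -1 ≤ y → y ≤ 1 → HasDerivAt H (-((k : ℝ) / 2 * H y / (y + 2))) y)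
    (hP : ContDiff ℝ ∞ (fun X : E (k + 1) => P (X 0) (yv X)))
    (hQ : ContDiff ℝ ∞ (fun X : E (k + 1) => Q (X 0) (yv X)))
    (hS : ContDiff ℝ ∞ (fun X : E (k + 1) => S (X 0) (yv X)))
    (hW : ContDiff ℝ ∞ (fun X : E (k + 1) => W (X 0) (yv X)))
    (hWx : ∀ x y, HasDerivAt (fun t => W t y) (Wx x y) x)
    (hWy : ∀ x y, HasDerivAt (fun t => W x t) (Wy x y) y)
    (hF : ∀ x y, HasDerivAt (fun t => P t y * Wx t y + Q t y * Wy t y) (F' x y) x)
    (hG : ∀ x y, HasDerivAt (fun t => Q x t * Wx x t + S x t * Wy x t) (G' x y) y)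
    (X : E (k + 1)) (hX1 : -1 ≤ yv X) (hX2 : yv X ≤ 1) :
    ellOp (AN H P Q S) (fun _ => 0) (fun X : E (k + 1) => W (X 0) (yv X)) X =
      -(2 * (yv X + 2) * H (yv X) * (F' (X 0) (yv X) + G' (X 0) (yv X))) := by
  have hWd : Differentiable ℝ (fun X : E (k + 1) => W (X 0) (yv X)) :=
    hW.differentiable (by simp)
  have hA : ∀ i j, Differentiable ℝ (AN H P Q S i j : E (k + 1) → ℝ) := fun i j =>
    (AN_smooth hH hP hQ hS i j).differentiable (by simp)
  have hpdd : ∀ j, Differentiable ℝ (pd j (fun X : E (k + 1) => W (X 0) (yv X))) := fun j =>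
    (contDiff_pd' (m := 1) (hW.of_le (show (2 : WithTop ℕ∞) ≤ ∞ from
      WithTop.coe_le_coe.mpr le_top)) (by norm_num) j).differentiable (by norm_num)
  have e0 : ∀ Y : E (k + 1), pd 0 (fun X : E (k + 1) => W (X 0) (yv X)) Y = Wx (Y 0) (yv Y) :=
    fun Y => pd0W (hWd Y) (hWx _ _)
  have es : ∀ (a : Fin k) (Y : E (k + 1)), pd a.succ (fun X : E (k + 1) => W (X 0) (yv X)) Y =
      Wy (Y 0) (yv Y) * (2 * Y a.succ) := fun a Y => pdsW (hWd Y) (hWy _ _) a
  have hfl0 : (fun Y : E (k + 1) => ∑ j, AN H P Q S 0 j Y *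
      pd j (fun X : E (k + 1) => W (X 0) (yv X)) Y) = fun Y =>
      2 * (yv Y + 2) * H (yv Y) * (P (Y 0) (yv Y) * Wx (Y 0) (yv Y) +
        Q (Y 0) (yv Y) * Wy (Y 0) (yv Y)) := by
    funext Y
    rw [Fin.sum_univ_succ, AN_00, e0]
    have h1 : ∀ b : Fin k, AN H P Q S 0 b.succ Y *
        pd b.succ (fun X : E (k + 1) => W (X 0) (yv X)) Y =
        2 * H (yv Y) * Q (Y 0) (yv Y) * Wy (Y 0) (yv Y) * Y b.succ ^ 2 := by
      intro b
      rw [AN_0s, es]
      ring
    rw [Finset.sum_congr rfl fun b _ => h1 b, ← Finset.mul_sum, sum_sq_eq]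
    ring
  have hfls : ∀ a : Fin k, (fun Y : E (k + 1) => ∑ j, AN H P Q S a.succ j Y *
      pd j (fun X : E (k + 1) => W (X 0) (yv X)) Y) = fun Y =>
      H (yv Y) * Y a.succ * (Q (Y 0) (yv Y) * Wx (Y 0) (yv Y) +
        S (Y 0) (yv Y) * Wy (Y 0) (yv Y)) := by
    intro a
    funext Y
    rw [Fin.sum_univ_succ, AN_s0, e0]
    have h1 : ∀ b : Fin k, AN H P Q S a.succ b.succ Y *
        pd b.succ (fun X : E (k + 1) => W (X 0) (yv X)) Y =
        if a = b then H (yv Y) * S (Y 0) (yv Y) * Wy (Y 0) (yv Y) * Y b.succ else 0 := by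
      intro b
      rw [AN_ss, es]
      split_ifs
      · ring
      · ring
    rw [Finset.sum_congr rfl fun b _ => h1 b, Finset.sum_ite_eq, if_pos (Finset.mem_univ a)]
    ring
  have hsum : ∀ i, ∑ j, pd i (fun y => AN H P Q S i j y *
      pd j (fun X : E (k + 1) => W (X 0) (yv X)) y) X =
      pd i (fun Y => ∑ j, AN H P Q S i j Y * pd j (fun X : E (k + 1) => W (X 0) (yv X)) Y) X :=
    fun i => pd_sum' Finset.univ (fun j _ => (hA i j X).mul (hpdd j X)) i
  have hdsum : ∀ i, DifferentiableAt ℝ (fun Y => ∑ j, AN H P Q S i j Y *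
      pd j (fun X : E (k + 1) => W (X 0) (yv X)) Y) X := fun i =>
    DifferentiableAt.fun_sum fun j _ => (hA i j X).mul (hpdd j X)
  have hy2 : yv X + 2 ≠ 0 := by linarith
  have r0 : pd 0 (fun Y => ∑ j, AN H P Q S 0 j Y *
      pd j (fun X : E (k + 1) => W (X 0) (yv X)) Y) X =
      2 * (yv X + 2) * H (yv X) * F' (X 0) (yv X) := by
    have hd := hdsum 0
    rw [hfl0] at hd ⊢
    apply pd_of_line hd
    simp only [line0_zero, line0_yv]
    have h1 := hF (X 0) (yv X)
    have h2 : HasDerivAt (fun t => P t (yv X) * Wx t (yv X) + Q t (yv X) * Wy t (yv X))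
        (F' (X 0) (yv X)) (X 0 + 0) := by rw [add_zero]; exact h1
    exact (h2.comp_const_add (X 0) 0).const_mul _
  have rs : ∀ a : Fin k, pd a.succ (fun Y => ∑ j, AN H P Q S a.succ j Y *
      pd j (fun X : E (k + 1) => W (X 0) (yv X)) Y) X =
      H (yv X) * (Q (X 0) (yv X) * Wx (X 0) (yv X) + S (X 0) (yv X) * Wy (X 0) (yv X)) +
      (2 * H (yv X) * G' (X 0) (yv X) - (k : ℝ) * H (yv X) / (yv X + 2) *
        (Q (X 0) (yv X) * Wx (X 0) (yv X) + S (X 0) (yv X) * Wy (X 0) (yv X))) *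
          X a.succ ^ 2 := by
    intro a
    have hd := hdsum a.succ
    rw [hfls a] at hd ⊢
    apply pd_of_line hd
    simp only [lines_zero, lines_yv, lines_self]
    have e : yv X + 2 * 0 * X a.succ + 0 ^ 2 = yv X := by ring
    have h1 := hin (yv X) (X a.succ)
    have h2 : HasDerivAt H (-((k : ℝ) / 2 * H (yv X) / (yv X + 2)))
        (yv X + 2 * 0 * X a.succ + 0 ^ 2) := by rw [e]; exact hHd _ hX1 hX2
    have h3 : HasDerivAt (fun t => Q (X 0) t * Wx (X 0) t + S (X 0) t * Wy (X 0) t)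
        (G' (X 0) (yv X)) (yv X + 2 * 0 * X a.succ + 0 ^ 2) := by rw [e]; exact hG _ _
    have h4 := h2.comp (0 : ℝ) h1
    have h5 := h3.comp (0 : ℝ) h1
    have h6 : HasDerivAt (fun t : ℝ => X a.succ + t) 1 0 := (hasDerivAt_id (0 : ℝ)).const_add _
    have h7 := (h4.mul h6).mul h5
    refine (h7.congr_deriv ?_).congr_of_eventuallyEq (Filter.Eventually.of_forall fun t => ?_)
    · simp only [Function.comp_apply, Pi.mul_apply, e, add_zero]
      field_simp
      ring
    · simp only [Function.comp_apply, Pi.mul_apply]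
  unfold ellOp
  simp only [hsum]
  rw [Fin.sum_univ_succ, r0, Finset.sum_congr rfl fun a _ => rs a, Finset.sum_add_distrib,
    Finset.sum_const, Finset.card_univ, Fintype.card_fin, nsmul_eq_mul, ← Finset.mul_sum,
    sum_sq_eq]
  field_simp
  ring

/-- ellipticity -/
lemma AN_ell {m : ℝ} (hm : 0 < m) (X : E (k + 1)) (hHm : m ≤ H (yv X)) (hX1 : -1 ≤ yv X)
    (hpos : ∀ s t : ℝ, (1 / 10) * (s ^ 2 + t ^ 2) ≤
      P (X 0) (yv X) * s ^ 2 + 2 * Q (X 0) (yv X) * s * t + S (X 0) (yv X) * t ^ 2)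
    (ξ : Fin (k + 1) → ℝ) :
    m / 20 * ∑ i, ξ i ^ 2 ≤ ∑ i, ∑ j, AN H P Q S i j X * ξ i * ξ j := by
  set p := P (X 0) (yv X) with hp
  set q := Q (X 0) (yv X) with hq
  set s' := S (X 0) (yv X) with hs
  set h := H (yv X) with hh
  set e : ℝ := ∑ a : Fin k, X a.succ * ξ a.succ with he
  set N : ℝ := ∑ a : Fin k, ξ a.succ ^ 2 with hN
  have hform : ∑ i, ∑ j, AN H P Q S i j X * ξ i * ξ j =
      h * (2 * (yv X + 2) * p * ξ 0 ^ 2 + 2 * q * ξ 0 * e + s' / 2 * N) := by
    rw [Fin.sum_univ_succ]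
    have h1 : ∑ j, AN H P Q S 0 j X * ξ 0 * ξ j =
        2 * (yv X + 2) * h * p * ξ 0 ^ 2 + h * q * ξ 0 * e := by
      rw [Fin.sum_univ_succ, AN_00]
      have : ∀ b : Fin k, AN H P Q S 0 b.succ X * ξ 0 * ξ b.succ =
          h * q * ξ 0 * (X b.succ * ξ b.succ) := by
        intro b
        rw [AN_0s]
        ring
      rw [Finset.sum_congr rfl fun b _ => this b, ← Finset.mul_sum]
      ring
    have h2 : ∀ a : Fin k, ∑ j, AN H P Q S a.succ j X * ξ a.succ * ξ j =
        h * q * ξ 0 * (X a.succ * ξ a.succ) + h * s' / 2 * ξ a.succ ^ 2 := by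
      intro a
      rw [Fin.sum_univ_succ, AN_s0]
      have : ∀ b : Fin k, AN H P Q S a.succ b.succ X * ξ a.succ * ξ b.succ =
          if a = b then h * s' / 2 * ξ a.succ * ξ b.succ else 0 := by
        intro b
        rw [AN_ss]
        split_ifs
        · rfl
        · ring
      rw [Finset.sum_congr rfl fun b _ => this b, Finset.sum_ite_eq, if_pos (Finset.mem_univ a)]
      ring
    rw [h1, Finset.sum_congr rfl fun a _ => h2 a, Finset.sum_add_distrib, ← Finset.mul_sum,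
      ← Finset.mul_sum]
    ring
  have hCS : e ^ 2 ≤ (yv X + 2) * N := by
    have := Finset.sum_mul_sq_le_sq_mul_sq Finset.univ (fun a : Fin k => X a.succ)
      (fun a : Fin k => ξ a.succ)
    rw [sum_sq_eq] at this
    exact this
  have hN0 : 0 ≤ N := Finset.sum_nonneg fun a _ => sq_nonneg _
  have hs10 : 1 / 10 ≤ s' := by
    have := hpos 0 1
    norm_num at this
    linarith
  have h1 := hpos (2 * (yv X + 2) * ξ 0) e
  have ht : 1 ≤ yv X + 2 := by linarith
  set τ := yv X + 2 with hτ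
  have h2 : 0 ≤ (s' - 1 / 10) * (τ * N - e ^ 2) :=
    mul_nonneg (by linarith) (by linarith)
  have h3 : 2 * τ * (1 / 20 * (ξ 0 ^ 2 + N)) ≤
      2 * τ * (2 * τ * p * ξ 0 ^ 2 + 2 * q * ξ 0 * e + s' / 2 * N) := by
    have h4 : 0 ≤ (τ - 1) * (τ * ξ 0 ^ 2) :=
      mul_nonneg (by linarith) (mul_nonneg (by linarith) (sq_nonneg _))
    have h5 : 0 ≤ τ * ξ 0 ^ 2 := mul_nonneg (by linarith) (sq_nonneg _)
    nlinarith
  have h4 : 1 / 20 * (ξ 0 ^ 2 + N) ≤ 2 * τ * p * ξ 0 ^ 2 + 2 * q * ξ 0 * e + s' / 2 * N :=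
    le_of_mul_le_mul_left h3 (by linarith)
  rw [hform, Fin.sum_univ_succ]
  have h5 : 0 ≤ 1 / 20 * (ξ 0 ^ 2 + N) := by positivity
  calc m / 20 * (ξ 0 ^ 2 + N) = m * (1 / 20 * (ξ 0 ^ 2 + N)) := by ring
    _ ≤ h * (1 / 20 * (ξ 0 ^ 2 + N)) := mul_le_mul_of_nonneg_right hHm h5
    _ ≤ _ := mul_le_mul_of_nonneg_left h4 (hm.le.trans hHm)

end

end Pool.Agent.Y770.EL
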